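import Pool.Agent.H72.BF.Targets4

open Polynomial Finset Filter

namespace Pool.Agent.H17.BF

open Pool.Agent.H72.BF

lemma cubical_mono {k k' : ℕ} {ε ε' : ℝ} {X : Finset ℂ} (h : Cubical k ε X) (hk : k' ≤ k)
    (hε : ε ≤ ε') : Cubical k' ε' X := by
  intro S hS hc
  obtain ⟨y, w, hw, hI⟩ := h S hS (le_trans (mul_le_mul_of_nonneg_right hε (Nat.cast_nonneg _)) hc)
  refine ⟨y, fun i => w (Fin.castLE hk i), hw.comp _ (Fin.castLE_injective hk), fun I => ?_⟩
  have := hI (I.map (Fin.castLEEmb hk))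
  rw [Finset.sum_map] at this
  exact this

lemma charZero_kb {H : ℕ → ℝ} (P : Pkg H) : CharZero P.kb := by
  infer_instance

lemma mem_kb_of_alg {H : ℕ → ℝ} (P : Pkg H) (x : P.F) (hx : IsAlgebraic P.kb x) : x ∈ P.kb := by
  rw [Pkg.kb, mem_algebraicClosure_iff]
  exact IsAlgebraic.restrictScalars P.kk hx

/-- no bad tuple of length zero -/
lemma not_bad_zero (hBF : BakerFeldman) (hBFF : T_BFF) {H : ℕ → ℝ} (P : Pkg H) (lam0 : ℂ)
    (h0 : lam0 ≠ 0) (ha : IsAlgebraic ℚ (Complex.exp lam0)) (d : ℕ) (a : Fin 0 → ℂ) :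
    ¬ badF P lam0 0 d a := by
  rintro ⟨Q, hQ, -, hQ0⟩
  have hli := hBFF hBF 1 (fun _ => lam0) (linearIndependent_unique_iff.2 (by simpa using h0))
    (fun _ => ha) H P
  have halg : IsAlgebraic P.kb (P.cst lam0) := by
    by_contra hn
    have ht : AlgebraicIndependent P.kb (fun _ : Fin 1 => P.cst lam0) := by
      rw [algebraicIndependent_unique_type_iff]
      exact hn
    apply hQ
    refine (algebraicIndependent_iff.1 ht) Q ?_
    rw [← hQ0]
    congr 2
    funext i
    rw [Subsingleton.elim i 0]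
    rfl
  have hmem := mem_kb_of_alg P _ halg
  rw [Fintype.linearIndependent_iff] at hli
  have := hli (Fin.cons (⟨P.cst lam0, hmem⟩ : P.kb) (fun _ => -1)) (by
    rw [Fin.sum_univ_succ]
    simp only [Fin.cons_zero, Fin.cons_succ, Finset.univ_unique, Finset.sum_singleton]
    rw [Algebra.smul_def, Algebra.smul_def]
    simp [IntermediateField.algebraMap_apply]) 1
  simp at this

lemma cons_snoc {H : ℕ → ℝ} (P : Pkg H) {n : ℕ} (lam0 m : ℂ) (a' : Fin n → ℂ) :
    (Fin.cons (P.cst lam0) (fun i => P.cst ((Fin.snoc a' m : Fin (n + 1) → ℂ) i)) :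
      Fin (n + 1 + 1) → P.F) =
    Fin.snoc (Fin.cons (P.cst lam0) (fun i => P.cst (a' i)) : Fin (n + 1) → P.F) (P.cst m) := by
  rw [← Fin.cons_snoc_eq_snoc_cons]
  congr 1
  funext i
  refine Fin.lastCases ?_ (fun j => ?_) i
  · simp
  · simp

lemma cst_sum {H : ℕ → ℝ} (P : Pkg H) {k : ℕ} (w : Fin k → ℂ) (I : Finset (Fin k)) (y : ℂ) :
    P.cst (y + ∑ i ∈ I, w i) = P.cst y + ∑ i ∈ I, P.cst (w i) := by
  classical
  induction I using Finset.induction_on with
  | empty => simp
  | insert a s ha ih =>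
    rw [Finset.sum_insert ha, Finset.sum_insert ha,
      show y + (w a + ∑ i ∈ s, w i) = w a + (y + ∑ i ∈ s, w i) by ring, P.cst_add, ih]
    ring

/-- few bad extensions of a tuple which is not bad -/
lemma few (hBF : BakerFeldman) (hBFF : T_BFF) {n d κ D' : ℕ}
    (hG : ∀ (K F : Type) [Field K] [CharZero K] [Field F]
      [Algebra K F] (t : Fin (n + 1) → F), (∀ P : MvPolynomial (Fin (n + 1)) K,
        P.totalDegree ≤ D' → MvPolynomial.aeval t P = 0 → P = 0) → ∀ (y0 : F) (k : ℕ)
      (w : Fin k → F), LinearIndependent K w →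
      (∀ I : Finset (Fin k), RelN K t d (y0 + ∑ i ∈ I, w i)) → k ≤ κ)
    {H : ℕ → ℝ} (P : Pkg H) (lam0 : ℂ) (X S : Finset ℂ) (ε : ℝ)
    (hX : ∀ z ∈ X, IsAlgebraic ℚ (Complex.exp z)) (hc : Cubical (κ + 1) ε X)
    (a' : Fin n → ℂ) (hb : ¬ badF P lam0 n D' a') (hSX : S ⊆ X)
    (hS : ∀ m ∈ S, badF P lam0 (n + 1) d (Fin.snoc a' m)) : (S.card : ℝ) < ε * X.card := by
  by_contra hlt
  push Not at hlt
  obtain ⟨y, w, hw, hI⟩ := hc S hSX hlt
  have hy : IsAlgebraic ℚ (Complex.exp y) := hX _ (hSX (by simpa using hI ∅))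
  have hwa : ∀ j, IsAlgebraic ℚ (Complex.exp (w j)) := by
    intro j
    have h1 : IsAlgebraic ℚ (Complex.exp (y + w j)) := hX _ (hSX (by simpa using hI {j}))
    have h2 : Complex.exp (w j) = Complex.exp (y + w j) * (Complex.exp y)⁻¹ := by
      rw [Complex.exp_add]
      field_simp [Complex.exp_ne_zero]
    rw [h2]
    exact h1.mul hy.inv
  have hli := hBFF hBF (κ + 1) w hw hwa H P
  have hli' : LinearIndependent P.kb (fun j => P.cst (w j)) := by
    have := hli.comp Fin.succ (Fin.succ_injective _)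
    simpa [Function.comp_def] using this
  have := charZero_kb P
  have := hG P.kb P.F (Fin.cons (P.cst lam0) (fun i => P.cst (a' i))) (by
    intro Q hQd hQ0
    by_contra hQ
    exact hb ⟨Q, hQ, hQd, hQ0⟩) (P.cst y) (κ + 1) (fun j => P.cst (w j)) hli' (by
    intro I
    obtain ⟨Q, hQ, hQd, hQ0⟩ := hS _ (hI I)
    refine ⟨Q, hQ, hQd, ?_⟩
    rw [cons_snoc, cst_sum] at hQ0
    exact hQ0)
  omega

open Classical in
theorem cntf (hBF : BakerFeldman) (hBFF : T_BFF) (hG : T_GCLC) : T_CNTF := by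
  intro n
  induction n with
  | zero =>
    intro d δ hδ
    refine ⟨0, 1, one_pos, fun X hX _ lam0 h0 ha H P => ?_⟩
    have : {a : Fin 0 → ℂ | (∀ i, a i ∈ X) ∧ badF P lam0 0 d a} = ∅ := by
      ext a
      simp only [Set.mem_ofPred_eq, Set.mem_empty_iff_false, iff_false, not_and]
      intro _
      exact not_bad_zero hBF hBFF P lam0 h0 ha d a
    rw [this]
    simp only [Set.ncard_empty, Nat.cast_zero, pow_zero, mul_one]
    exact hδ.le
  | succ n ih =>
    intro d δ hδ
    obtain ⟨κ, D', hκ⟩ := hG (n + 1) d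
    obtain ⟨k1, ε1, hε1, h1⟩ := ih D' (δ / 2) (by positivity)
    refine ⟨max k1 (κ + 1), min ε1 (δ / 2), lt_min hε1 (by positivity), ?_⟩
    intro X hX hcub lam0 h0 ha H P
    have hG1 := h1 X hX (cubical_mono hcub (le_max_left _ _) (min_le_left _ _)) lam0 h0 ha H P
    have hcub2 : Cubical (κ + 1) (δ / 2) X :=
      cubical_mono hcub (le_max_right _ _) (min_le_right _ _)
    set XX : Finset (Fin n → ℂ) := Fintype.piFinset (fun _ => X) with hXX
    set Bf : Finset (Fin (n + 1) → ℂ) :=
      (Fintype.piFinset (fun _ => X)).filter (fun a => badF P lam0 (n + 1) d a) with hBf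
    set Gf : Finset (Fin n → ℂ) := XX.filter (fun a => badF P lam0 n D' a) with hGf
    have e1 : {a : Fin (n + 1) → ℂ | (∀ i, a i ∈ X) ∧ badF P lam0 (n + 1) d a} = (Bf : Set _) := by
      ext a
      simp [hBf, Fintype.mem_piFinset]
    have e2 : {a : Fin n → ℂ | (∀ i, a i ∈ X) ∧ badF P lam0 n D' a} = (Gf : Set _) := by
      ext a
      simp [hGf, hXX, Fintype.mem_piFinset]
    rw [e1, Set.ncard_coe_finset]
    rw [e2, Set.ncard_coe_finset] at hG1
    have hmaps : ∀ a ∈ Bf, Fin.init a ∈ XX := by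
      intro a haB
      rw [hBf, Finset.mem_filter, Fintype.mem_piFinset] at haB
      rw [hXX, Fintype.mem_piFinset]
      intro i
      exact haB.1 _
    have hcard : Bf.card = ∑ a' ∈ XX, (Bf.filter (fun a => Fin.init a = a')).card :=
      Finset.card_eq_sum_card_fiberwise (f := fun a : Fin (n + 1) → ℂ => (Fin.init a : Fin n → ℂ))
        (s := Bf) (t := XX) hmaps
    have hfib : ∀ a' : Fin n → ℂ, (Bf.filter (fun a => Fin.init a = a')).card ≤
        (X.filter (fun m => badF P lam0 (n + 1) d (Fin.snoc a' m))).card := by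
      intro a'
      refine Finset.card_le_card_of_injOn (fun a => a (Fin.last n)) ?_ ?_
      · intro a haf
        simp only [hBf, Finset.coe_filter, Finset.mem_filter, Set.mem_ofPred_eq,
          Fintype.mem_piFinset] at haf ⊢
        refine ⟨haf.1.1 _, ?_⟩
        rw [← haf.2, Fin.snoc_init_self]
        exact haf.1.2
      · intro a haf b hbf hab
        simp only [Finset.coe_filter, Set.mem_ofPred_eq] at haf hbf
        rw [← Fin.snoc_init_self a, ← Fin.snoc_init_self b, haf.2, hbf.2]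
        simp only at hab
        rw [hab]
    have hXn : (XX.card : ℝ) = (X.card : ℝ) ^ n := by
      rw [hXX, Fintype.card_piFinset_const]
      push_cast
      rfl
    have hbound : ∀ a' ∈ XX, ((Bf.filter (fun a => Fin.init a = a')).card : ℝ) ≤
        (if a' ∈ Gf then (X.card : ℝ) else 0) + δ / 2 * X.card := by
      intro a' haX
      by_cases hg : a' ∈ Gf
      · rw [if_pos hg]
        have : ((Bf.filter (fun a => Fin.init a = a')).card : ℝ) ≤ X.card := by
          exact_mod_cast (hfib a').trans (Finset.card_filter_le _ _)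
        have h3 : 0 ≤ δ / 2 * (X.card : ℝ) := by positivity
        linarith
      · rw [if_neg hg, zero_add]
        have hnb : ¬ badF P lam0 n D' a' := by
          intro hb
          exact hg (Finset.mem_filter.2 ⟨haX, hb⟩)
        have h3 := few hBF hBFF hκ P lam0 X
          (X.filter (fun m => badF P lam0 (n + 1) d (Fin.snoc a' m))) (δ / 2) hX hcub2 a' hnb
          (Finset.filter_subset _ _) (fun m hm => (Finset.mem_filter.1 hm).2)
        have h4 : ((Bf.filter (fun a => Fin.init a = a')).card : ℝ) ≤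
            (X.filter (fun m => badF P lam0 (n + 1) d (Fin.snoc a' m))).card := by
          exact_mod_cast hfib a'
        linarith
    rw [hcard]
    push_cast
    refine (Finset.sum_le_sum hbound).trans ?_
    rw [Finset.sum_add_distrib, Finset.sum_const, nsmul_eq_mul, hXn, ← Finset.sum_filter]
    have h5 : ∑ _a ∈ XX.filter (fun a' => a' ∈ Gf), (X.card : ℝ) ≤ Gf.card * X.card := by
      rw [Finset.sum_const, nsmul_eq_mul]
      refine mul_le_mul_of_nonneg_right ?_ (Nat.cast_nonneg _)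
      exact_mod_cast Finset.card_le_card (fun a haf => (Finset.mem_filter.1 haf).2)
    have h6 : (Gf.card : ℝ) * X.card ≤ δ / 2 * (X.card : ℝ) ^ n * X.card :=
      mul_le_mul_of_nonneg_right hG1 (Nat.cast_nonneg _)
    rw [pow_succ]
    nlinarith [h5, h6]

end Pool.Agent.H17.BF
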